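import Pool.Agent.D0H39.MAFlowD

/-!
# The local complex Monge-Ampère flow has no solution from `log ‖z‖`

For every `n ≥ 1` and every `T > 0`, with `Ω` the unit ball of `ℂⁿ`, `u₀ = log ‖z‖` and `φ = 0`, no
function satisfies conditions 1-4.  Proof: `w_ε(z,t) = (1/2 - n t) log (‖z‖² + ε²)` is a
supersolution; pointwise convergence `u(·,t) → log ‖z‖` is upgraded to a uniform upper bound by
`w_ε + η` for small times (Hartogs' lemma, from the sub-mean value inequality on balls), so the
maximum principle gives `u ≤ w_ε` for `t < 1/(2n)`, and `ε → 0` forces `u(0,t) = -∞`.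
-/

open Set Pool.Agent.D0H39.MAFlow

namespace Pool.Agent.Results.MP_8f0dee_an.NoSolution

theorem result (n : ℕ) (hn : 1 ≤ n) :
    IsStrictlyPseudoconvexDomain (Metric.ball (0 : Cn n) 1) ∧
    ∀ T : ℝ, 0 < T →
      IsData (Metric.ball (0 : Cn n) 1) T logNorm (fun _ _ => 0) ∧
      ¬ ∃ u : Cn n → ℝ → ℝ,
        IsSolution (Metric.ball (0 : Cn n) 1) T logNorm (fun _ _ => 0) u :=
  ⟨ball_domain hn, fun T hT => ⟨ball_data hn T, fun ⟨_, hu⟩ => no_solution_aux hu hn hT⟩⟩

end Pool.Agent.Results.MP_8f0dee_an.NoSolution
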